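import Mathlib
import Pool.Agent.X26.MC.Chen

/-!
# Tuples with short shifts: the same patterns for several tuples of different lengths and several windows

Let `T_1, …, T_M` be admissible sets of `r_1, …, r_M` integers in `[0, x]` containing `0`, for instance the sets
`{0} ∪ 𝒟` with `𝒟 ⊆ [2, log ^ r x]` of the problem; all this may change with `x`. We count the primes `p` for which one
chosen `p + h_i`, `0 ≠ h_i ∈ T_i`, is a product of at most two primes and all `p + t`, `t ∈ T_i`, are almost primes. For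
all `M` windows of length `X ≥ θ x` in `[1, x]`, a positive proportion of the vectors `d ∈ [1, D] ^ m`, `D` between a
power of `log x` and `X`, serves for ALL `i`, and for ALL `F ⊆ {0, …, k - 1} ^ m` containing `0`, at once: the number of
the `p` in the `i`-th window for which all the `p + ∑ f_j d_j`, `f ∈ F`, are such primes of the window has the order of
magnitude which the Hardy-Littlewood conjecture predicts for the `r_i |F|` forms `p + t + ∑ f_j d_j`, uniformly in the
`T_i`.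
-/

set_option autoImplicit false

namespace Pool.Agent.Results.MP_485179_nt.CommonPatterns

open Finset

/-- The number of the residue classes modulo `q` occupied by `T`. -/
def nu (T : Finset ℤ) (q : ℕ) : ℕ := (T.image (fun t : ℤ => t % q)).card

/-- The local factor `(1 - ν(q) / q) (1 - 1 / q) ^ (-|T|)`. -/
noncomputable def loc (T : Finset ℤ) (q : ℕ) : ℝ := (1 - (nu T q : ℝ) / q) / (1 - 1 / (q : ℝ)) ^ T.card

/-- The singular series, the product of the local factors over all primes. -/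
noncomputable def Sing (T : Finset ℤ) : ℝ := ∏' q : Nat.Primes, loc T q

/-- `m ≠ 0` is up to the sign a product of at most `j` primes, all of them larger than `w`. -/
def Almost (j : ℕ) (w : ℝ) (m : ℤ) : Prop :=
  m ≠ 0 ∧ m.natAbs.primeFactorsList.length ≤ j ∧ ∀ q : ℕ, q.Prime → (q : ℤ) ∣ m → w < q

open Classical in
/-- The primes `p` in `(y, y + X]` for which `p + h` is a product of at most two primes, both larger than
`x ^ (1/9)`, and all `p + t`, `t ∈ T`, are products of at most `j` primes larger than `x ^ (1/j)`. -/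
noncomputable def Chen (j x : ℕ) (T : Finset ℤ) (h : ℤ) (y X : ℕ) : Finset ℕ :=
  (Ioc y (y + X)).filter (fun n : ℕ => n.Prime ∧ Almost 2 ((x : ℝ) ^ (1 / 9 : ℝ)) (n + h) ∧
    ∀ t ∈ T, Almost j ((x : ℝ) ^ (1 / (j : ℝ))) (n + t))

/-- The set of the integers `t + ∑ f_i d_i`, `t ∈ T`, `f ∈ F`. -/
def sumSet {m : ℕ} (T : Finset ℤ) (d : Fin m → ℕ) (F : Finset (Fin m → ℕ)) : Finset ℤ :=
  (T ×ˢ F).image (fun p : ℤ × (Fin m → ℕ) => p.1 + ((∑ i, p.2 i * d i : ℕ) : ℤ))

/-- For all `M` and `r_1, …, r_M` there is `j ≥ 1` such that for all `m` and `k` there are `c > 0` and `B` with: for every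
`θ > 0`, all large `x`, all admissible sets `T_i ⊆ [0, x]` of `r_i` integers with `0 ∈ T_i`, all `0 ≠ h_i ∈ T_i` and all
windows `(y_i, y_i + X] ⊆ [1, x]` with `X ≥ θ x`, and every `D` from `log ^ B x` to `X`, at least `c D ^ m` vectors `d`
with entries in `[1, D]` have the following property. For all sets `F` of vectors with entries in `{0, ..., k - 1}`
which contain the vector `0` and for all `i`, the set `T' = T_i + {∑ f_l d_l : f ∈ F}` consists of `r_i |F|` integers and
misses a class modulo every prime, and for at least `c 𝔖(T') X / log ^ (r_i |F|) x` elements `p` of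
`Chen j x T_i h_i y_i X` all the `p + ∑ f_l d_l`, `f ∈ F`, are elements of `Chen j x T_i h_i y_i X`. -/
theorem result (M : ℕ) (r : Fin M → ℕ) : ∃ j : ℕ, 1 ≤ j ∧ ∀ m k : ℕ, ∃ c : ℝ, 0 < c ∧ ∃ B : ℕ, ∀ θ : ℝ, 0 < θ →
    ∃ x₀ : ℕ, ∀ x : ℕ, x₀ ≤ x → ∀ (T : Fin M → Finset ℤ) (h : Fin M → ℤ), (∀ i, (T i).card = r i) →
      (∀ i, ∀ q : ℕ, q.Prime → nu (T i) q < q) → (∀ i, (0 : ℤ) ∈ T i ∧ ∀ t ∈ T i, 0 ≤ t ∧ t ≤ x) →
      (∀ i, h i ∈ T i ∧ h i ≠ 0) → ∀ (y : Fin M → ℕ) (X D : ℕ), (∀ i, y i + X ≤ x) → θ * x ≤ X → X ≤ x →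
      Real.log x ^ B ≤ D → D ≤ X →
      ∃ G : Finset (Fin m → ℕ), (∀ d ∈ G, ∀ i, 1 ≤ d i ∧ d i ≤ D) ∧ c * (D : ℝ) ^ m ≤ G.card ∧
        ∀ d ∈ G, ∀ F : Finset (Fin m → ℕ), (∀ f ∈ F, ∀ i, f i < k) → (fun _ => 0) ∈ F → ∀ i,
          (sumSet (T i) d F).card = r i * F.card ∧ (∀ q : ℕ, q.Prime → nu (sumSet (T i) d F) q < q) ∧
          c * (Sing (sumSet (T i) d F) * (X / Real.log x ^ (r i * F.card))) ≤
            (((Chen j x (T i) (h i) (y i) X).filter
              (fun n => ∀ f ∈ F, n + ∑ l, f l * d l ∈ Chen j x (T i) (h i) (y i) X)).card : ℝ) := by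
  classical
  obtain ⟨J, hJ, h0⟩ := Pool.Agent.X26.MC.chenM M r
  refine ⟨J, hJ, fun m k => ?_⟩
  obtain ⟨c, hc, B, h1⟩ := h0 m k
  refine ⟨c, hc, B, fun θ hθ => ?_⟩
  obtain ⟨x₀, h2⟩ := h1 θ hθ
  refine ⟨x₀, fun x hx T h hr hadm hT hh y X D hyX hθX hXx hD hDX => ?_⟩
  have htup : ∀ i, Pool.Agent.Y843.AC.HL.Tup (r i) x (T i) := by
    intro i
    refine ⟨hr i, hadm i, fun t ht => ?_⟩
    obtain ⟨h3, h4⟩ := (hT i).2 t ht
    rw [abs_of_nonneg h3]
    exact h4
  obtain ⟨G, g1, g2, g3⟩ := h2 x hx T htup (fun i => (hT i).1) h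
    (fun i => (hh i).1) (fun i => (hh i).2) y X D hyX hXx hθX hD hDX
  refine ⟨G, ?_, g2, fun d hd F hF hF0 i => ?_⟩
  · intro d hd j
    have := g1 hd
    rw [Fintype.mem_piFinset] at this
    exact mem_Icc.1 (this j)
  obtain ⟨k1, k2, k3⟩ := g3 d hd F hF hF0 i
  have e : Pool.Agent.Y843.AC.HL.gg (Pool.Agent.X26.GP.TF (T i) d F) x =
      Sing (sumSet (T i) d F) / Real.log x ^ (Pool.Agent.X26.GP.TF (T i) d F).card := rfl
  rw [e, k1] at k3
  refine ⟨k1, k2, ?_⟩
  have e2 : c * (Sing (sumSet (T i) d F) * (X / Real.log x ^ (r i * F.card))) =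
      c * (X * (Sing (sumSet (T i) d F) / Real.log x ^ (r i * F.card))) := by ring
  rw [e2]
  exact k3

end Pool.Agent.Results.MP_485179_nt.CommonPatterns
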