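import Pool.Agent.X26.MC.Tup
import Pool.Agent.Results.MP_e87c7d_nt.ProgressionsOfPrimeTuples

/-!
# Prime tuples with short shifts: any `M` of the good tuples have common patterns

Call a set `T` of `k + 1` shifts good if the number of the `n ≤ x` with all `n + t`, `t ∈ T`, prime is at least a
constant times the number predicted by the Hardy-Littlewood conjecture. Among the `(k + 1)`-element subsets of any set
of `λ log x` shifts (for instance shifts up to `log ^ (k + 1) x`) the good ones have at least the proportion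
`4 ^ (-k) - ε`, in the measure of the singular series. We show that for any `M` good sets `T_1, …, T_M` a positive
proportion of the vectors `d ∈ [1, D] ^ m`, `D` between a power of `log x` and `x`, serves for ALL of them, and for ALL
`F ⊆ {0, …, K - 1} ^ m` containing `0`, at once: the sets `T_i + {∑ f_j d_j : f ∈ F}` of `(k + 1) |F|` shifts are good.
-/

set_option autoImplicit false

namespace Pool.Agent.Results.MP_485179_nt.CommonPrimePatterns

open Finset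
open Pool.Agent.Results.MP_e87c7d_nt.ProgressionsOfPrimeTuples (Tuples P g Sing nu loc tup win P_sub P_R full
  sing_nat P_nat adm_of_sing average_low)

/-- The set of the integers `t + ∑ f_i d_i`, `t ∈ T`, `f ∈ F`. -/
def sumSet {m : ℕ} (T : Finset ℤ) (d : Fin m → ℕ) (F : Finset (Fin m → ℕ)) : Finset ℤ :=
  (T ×ˢ F).image (fun p : ℤ × (Fin m → ℕ) => p.1 + ((∑ i, p.2 i * d i : ℕ) : ℤ))

/-- At least `c D ^ m` vectors `d` with entries in `[1, D]` have the following property. For all sets `F` of vectors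
with entries in `{0, ..., K - 1}` which contain the vector `0` and for ALL `i`, the set
`T' = T_i + {∑ f_j d_j : f ∈ F}` is an admissible set of `|T_i| |F|` integers, and for at least
`c 𝔖(T') X / log ^ |T'| x` elements `n` of `S_i` all the `n + ∑ f_j d_j`, `f ∈ F`, are elements of `S_i`. -/
def CommonPatterns (M m K : ℕ) (c : ℝ) (x : ℕ) (T : Fin M → Finset ℤ) (X D : ℕ) (S : Fin M → Finset ℕ) : Prop :=
  ∃ G : Finset (Fin m → ℕ), (∀ d ∈ G, ∀ i, 1 ≤ d i ∧ d i ≤ D) ∧ c * (D : ℝ) ^ m ≤ G.card ∧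
    ∀ d ∈ G, ∀ F : Finset (Fin m → ℕ), (∀ f ∈ F, ∀ i, f i < K) → (fun _ => 0) ∈ F → ∀ i,
      (sumSet (T i) d F).card = (T i).card * F.card ∧ (∀ q : ℕ, q.Prime → nu (sumSet (T i) d F) q < q) ∧
      c * (X * g (sumSet (T i) d F) x) ≤
        (((S i).filter (fun n => ∀ f ∈ F, n + ∑ j, f j * d j ∈ S i)).card : ℝ)

theorem boot (M m K : ℕ) (r : Fin M → ℕ) {θ δ : ℝ} (hθ : 0 < θ) (hδ : 0 < δ) : ∃ c : ℝ, 0 < c ∧ ∃ B x₀ : ℕ,
    ∀ x : ℕ, x₀ ≤ x → ∀ T : Fin M → Finset ℤ, (∀ i, T i ∈ Tuples (r i) x) → ∀ (y : Fin M → ℕ) (X D : ℕ),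
    (x : ℝ) ^ θ ≤ X → X ≤ x → Real.log x ^ B ≤ D → D ≤ X → ∀ S : Fin M → Finset ℕ,
    (∀ i, S i ⊆ P (T i) (y i) (y i + X)) → (∀ i, δ * (X * g (T i) x) ≤ (S i).card) →
    CommonPatterns M m K c x T X D S := by
  obtain ⟨c, hc, B, x₀, h⟩ := Pool.Agent.X26.MC.tupM M m K r 1 le_rfl hθ hδ
  refine ⟨c, hc, B, x₀, ?_⟩
  intro x hx T hT y X D hX hXx hD hDX S hS hSc
  obtain ⟨G, hG, hG1, hG2⟩ := h x hx T (fun i => tup (hT i)) y X D hX hXx hD hDX S
    (fun i => (hS i).trans (P_sub _ _ _)) (fun i n hn => P_R (T i) (y i) (y i + X) 1 x n (hS i hn)) hSc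
  refine ⟨G, ?_, hG1, ?_⟩
  · intro d hd i
    have := hG hd
    rw [Fintype.mem_piFinset] at this
    exact mem_Icc.1 (this i)
  · intro d hd F hF hF0 i
    obtain ⟨g1, g2, g3⟩ := hG2 d hd F hF hF0 i
    refine ⟨?_, g2, g3⟩
    rw [(hT i).1]
    exact g1

open Classical in
/-- the good subsets of `A` with `r` elements -/
noncomputable def Good (κ : ℝ) (r x : ℕ) (A : Finset ℤ) : Finset (Finset ℤ) :=
  (A.powersetCard r).filter (fun T => T ∈ Tuples r x ∧ κ * (x * g T x) ≤ (P T 0 x).card)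

open Classical in
theorem quarter (r : ℕ) (hr : 2 ≤ r) (ε lam : ℝ) (hε : 0 < ε) (hlam : 0 < lam) :
    ∃ κ : ℝ, 0 < κ ∧ ∀ q : ℕ, 1 ≤ q → ∀ L : ℝ, ∃ x₀ : ℕ, ∀ x : ℕ, x₀ ≤ x →
      ∀ (a : ℤ) (A : Finset ℤ), (∀ b ∈ A, b ≡ a [ZMOD q]) → (∀ b ∈ A, 0 ≤ b ∧ (b : ℝ) ≤ Real.log x ^ L) →
      lam * ((Nat.totient q : ℝ) / q) * Real.log x ≤ A.card →
        ((1 / 4 : ℝ) ^ (r - 1) - ε) * ∑ T ∈ A.powersetCard r, Sing T ≤ ∑ T ∈ Good κ r x A, Sing T := by
  classical
  obtain ⟨k', rfl⟩ : ∃ k', r = k' + 1 := ⟨r - 1, by omega⟩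
  obtain ⟨κ, hκ, hq⟩ := Pool.Agent.H362R2.QT.fin_holds k' ε lam (by omega) hε hlam
  refine ⟨κ, hκ, ?_⟩
  intro q hq1 L
  obtain ⟨n₃, h3⟩ := hq q hq1 L
  have h4 := (isLittleO_log_rpow_rpow_atTop L one_pos).bound (show (0 : ℝ) < 1 by norm_num)
  have h5 := (tendsto_natCast_atTop_atTop (R := ℝ)).eventually (h4.and (Filter.eventually_ge_atTop (1 : ℝ)))
  rw [Filter.eventually_atTop] at h5
  obtain ⟨n₄, h6⟩ := h5
  refine ⟨max (max n₃ n₄) 3, ?_⟩
  intro x hx a A hA hAL hcard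
  obtain ⟨h7, h8⟩ := h6 x (by omega)
  have hlog : Real.log x ^ L ≤ x := by
    rw [Real.rpow_one, Real.norm_of_nonneg (by positivity), Real.norm_of_nonneg (by positivity), one_mul] at h7
    exact h7
  obtain ⟨A', hA'⟩ : ∃ A' : Finset ℕ, A = A'.map Nat.castEmbedding := by
    refine ⟨A.image Int.toNat, ?_⟩
    ext v
    rw [mem_map]
    constructor
    · intro hv
      refine ⟨v.toNat, mem_image_of_mem _ hv, ?_⟩
      rw [Nat.castEmbedding_apply]
      exact Int.toNat_of_nonneg (hAL v hv).1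
    · rintro ⟨w, hw, rfl⟩
      obtain ⟨b, hb, rfl⟩ := mem_image.1 hw
      rw [Nat.castEmbedding_apply, Int.toNat_of_nonneg (hAL b hb).1]
      exact hb
  have hmem : ∀ b ∈ A', ((b : ℕ) : ℤ) ∈ A := by
    intro b hb
    rw [hA', mem_map]
    exact ⟨b, hb, rfl⟩
  have hq0 : (q : ℤ) ≠ 0 := by exact_mod_cast (by omega : q ≠ 0)
  have h9 := h3 x (by omega) ((a % q).toNat) A' (by
      intro b hb
      have h10 := hA b (hmem b hb)
      have h11 : ((b : ℕ) : ℤ) ≡ (((a % q).toNat : ℕ) : ℤ) [ZMOD q] := by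
        rw [Int.toNat_of_nonneg (Int.emod_nonneg a hq0)]
        exact h10.trans (Int.mod_modEq a q).symm
      exact (Int.natCast_modEq_iff).1 h11) (by
      intro b hb
      exact_mod_cast (hAL b (hmem b hb)).2) (by
      rw [hA', card_map] at hcard
      exact hcard)
  have hsum : ∀ f : Finset ℤ → ℝ, ∑ T ∈ A.powersetCard (k' + 1), f T =
      ∑ T ∈ A'.powersetCard (k' + 1), f (T.map Nat.castEmbedding) := by
    intro f
    rw [hA', powersetCard_map, sum_map]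
    rfl
  unfold Good
  rw [Finset.sum_filter, hsum, hsum, ← Finset.sum_filter]
  rw [show k' + 1 - 1 = k' by omega]
  simp_rw [sing_nat]
  refine h9.trans ?_
  rw [← Finset.sum_filter_ne_zero]
  apply Finset.sum_le_sum_of_subset_of_nonneg
  · intro T hT
    rw [mem_filter, mem_filter, mem_powersetCard] at hT
    obtain ⟨⟨⟨t1, t2⟩, t3⟩, t4⟩ := hT
    rw [mem_filter, mem_powersetCard]
    refine ⟨⟨t1, t2⟩, ?_⟩
    have hTup : T.map Nat.castEmbedding ∈ Tuples (k' + 1) x := by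
      refine ⟨by rw [card_map, t2], adm_of_sing (by rw [sing_nat]; exact t4), ?_⟩
      intro t ht
      rw [mem_map] at ht
      obtain ⟨v, hv, rfl⟩ := ht
      rw [Nat.castEmbedding_apply, Nat.abs_cast]
      have h10 := (hAL v (hmem v (t1 hv))).2
      have h11 : (v : ℝ) ≤ x := by
        refine le_trans ?_ hlog
        exact_mod_cast h10
      exact_mod_cast h11
    refine ⟨hTup, ?_⟩
    rw [P_nat]
    refine le_trans (le_of_eq ?_) t3
    unfold g
    rw [sing_nat, card_map, t2]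
    ring
  · intro T _ _
    exact Pool.Agent.H387R2.Uni.CT_nonneg T

/-- Definitions used (from the starting file `ProgressionsOfPrimeTuples`): `nu T q` is the number of the classes modulo
`q` occupied by `T`; `Sing T = 𝔖(T)`; `g T x = 𝔖(T) / log ^ |T| x`; `Tuples r x` is the set of the admissible sets of
`r` integers `|t| ≤ x`; `P T y₁ y₂` is the set of the `n` in `(y₁, y₂]` for which all `n + t`, `t ∈ T`, are primes (up to
the sign).

1. For all `M`, `m`, `K`, all `r_1, …, r_M` and all `θ, δ > 0` there are `c > 0` and `B` such that for all large `x`, all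
  `T_i ∈ Tuples r_i x`, all `X` with `x ^ θ ≤ X ≤ x`, all windows `(y_i, y_i + X]` and all `D` between `log ^ B x` and `X`:
  all sets `S_i ⊆ P T_i y_i (y_i + X)` with `|S_i| ≥ δ X g T_i x` have `CommonPatterns`.
2. Let `k ≥ 1` and `ε, λ > 0`. There is `κ > 0` such that
  (a) for all `q ≥ 1`, `L`, all large `x` and every set `A ⊆ [0, log ^ L x]` of at least `λ (φ(q) / q) log x` integers of
  one class modulo `q`, the set `Good κ (k + 1) x A` of the admissible subsets `T` of `A` with `k + 1` elements and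
  `|P T 0 x| ≥ κ x g T x` has at least the proportion `4 ^ (-k) - ε` of `∑ 𝔖(T)`;
  (b) for all `M`, `m`, `K` there are `c > 0` and `B` such that for all large `x`, all sets `A` of integers, all
  `T_1, …, T_M` in `Good κ (k + 1) x A` and all `D` between `log ^ B x` and `x` the sets `P T_i 0 x` have
  `CommonPatterns`.
3. Let `r ≥ 1`. There is `κ > 0` such that for every `U` and all large `x` there is a set `Ex` of at most
  `x ^ (r - 1) / log ^ U x` sets such that all `T` in `Tuples r x` with smallest element `0` which are not in `Ex` have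
  `|P T 0 x| ≥ κ x g T x`; so any `M` of them have common patterns by part 1. -/
theorem result :
    (∀ (M m K : ℕ) (r : Fin M → ℕ) (θ δ : ℝ), 0 < θ → 0 < δ → ∃ c : ℝ, 0 < c ∧ ∃ B x₀ : ℕ,
      ∀ x : ℕ, x₀ ≤ x → ∀ T : Fin M → Finset ℤ, (∀ i, T i ∈ Tuples (r i) x) → ∀ (y : Fin M → ℕ) (X D : ℕ),
      (x : ℝ) ^ θ ≤ X → X ≤ x → Real.log x ^ B ≤ D → D ≤ X → ∀ S : Fin M → Finset ℕ,
      (∀ i, S i ⊆ P (T i) (y i) (y i + X)) → (∀ i, δ * (X * g (T i) x) ≤ (S i).card) →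
      CommonPatterns M m K c x T X D S) ∧
    (∀ k : ℕ, 1 ≤ k → ∀ ε lam : ℝ, 0 < ε → 0 < lam → ∃ κ : ℝ, 0 < κ ∧
      (∀ q : ℕ, 1 ≤ q → ∀ L : ℝ, ∃ x₀ : ℕ, ∀ x : ℕ, x₀ ≤ x →
        ∀ (a : ℤ) (A : Finset ℤ), (∀ b ∈ A, b ≡ a [ZMOD q]) → (∀ b ∈ A, 0 ≤ b ∧ (b : ℝ) ≤ Real.log x ^ L) →
        lam * ((Nat.totient q : ℝ) / q) * Real.log x ≤ A.card →
          ((1 / 4 : ℝ) ^ k - ε) * ∑ T ∈ A.powersetCard (k + 1), Sing T ≤ ∑ T ∈ Good κ (k + 1) x A, Sing T) ∧
      (∀ M m K : ℕ, ∃ c : ℝ, 0 < c ∧ ∃ B x₀ : ℕ, ∀ x : ℕ, x₀ ≤ x → ∀ (A : Finset ℤ) (T : Fin M → Finset ℤ),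
        (∀ i, T i ∈ Good κ (k + 1) x A) → ∀ D : ℕ, Real.log x ^ B ≤ D → D ≤ x →
        CommonPatterns M m K c x T x D (fun i => P (T i) 0 x))) ∧
    (∀ r : ℕ, 1 ≤ r → ∃ κ : ℝ, 0 < κ ∧ ∀ U : ℕ, ∃ x₀ : ℕ, ∀ x : ℕ, x₀ ≤ x →
      ∃ Ex : Finset (Finset ℤ), (Ex.card : ℝ) ≤ (x : ℝ) ^ (r - 1) / Real.log x ^ U ∧
        ∀ T ∈ Tuples r x, (0 : ℤ) ∈ T → (∀ t ∈ T, 0 ≤ t) → T ∉ Ex → κ * (x * g T x) ≤ (P T 0 x).card) := by
  refine ⟨fun M m K r θ δ hθ hδ => boot M m K r hθ hδ, ?_, ?_⟩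
  · intro k hk ε lam hε hlam
    obtain ⟨κ, hκ, h1⟩ := quarter (k + 1) (by omega) ε lam hε hlam
    refine ⟨κ, hκ, h1, ?_⟩
    intro M m K
    obtain ⟨c, hc, B, x₀, h2⟩ := boot M m K (fun _ => k + 1) (θ := 1) one_pos hκ
    refine ⟨c, hc, B, x₀, fun x hx A T hT D hD hDx => ?_⟩
    have hT' : ∀ i, T i ∈ Tuples (k + 1) x ∧ κ * (x * g (T i) x) ≤ (P (T i) 0 x).card := by
      classical
      intro i
      have := hT i
      unfold Good at this
      exact (mem_filter.1 this).2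
    refine h2 x hx T (fun i => (hT' i).1) (fun _ => 0) x D ?_ le_rfl hD hDx _ (fun i => ?_) (fun i => (hT' i).2)
    · rw [Real.rpow_one]
    · rw [Nat.zero_add]
  · intro r hr
    obtain ⟨s, rfl⟩ : ∃ s, r = s + 1 := ⟨r - 1, by omega⟩
    obtain ⟨δ, hδ, h⟩ := average_low s
    refine ⟨δ, hδ, fun U => ?_⟩
    obtain ⟨x₀, hx₀⟩ := h U
    refine ⟨x₀, fun x hx => ?_⟩
    obtain ⟨Ex, hEx, hT⟩ := hx₀ x hx
    refine ⟨Ex, hEx, ?_⟩
    intro T hTt h0 hpos hTE
    exact hT T hTt h0 hpos hTE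

end Pool.Agent.Results.MP_485179_nt.CommonPrimePatterns
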