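import Mathlib
import Pool.Agent.Y879.AP.Mean2
import Pool.Agent.Y879.GL.Prog2
import Pool.Agent.X262.Cnt
import Pool.Agent.H362R2.QT.CTS

set_option autoImplicit false

/-!
# Regular points of arbitrary sets of almost prime tuples, uniformly in the shifts
-/

namespace Pool.Agent.Results.MP_485179_nt.RegularPrimeTuples

open Finset Filter

/-- all prime factors of `m` are larger than `X ^ (1 / r)` -/
def AlmostPrime (X r m : ℕ) : Prop := ∀ p : ℕ, p.Prime → p ∣ m → (X : ℝ) ^ (1 / (r : ℝ)) < p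

/-- the `m` for which all `m + h`, `h ∈ H`, are almost prime -/
def Tuples (X r : ℕ) (H : Finset ℕ) : Set ℕ := {m | ∀ h ∈ H, AlmostPrime X r (m + h)}

/-- the number of the residue classes modulo `p` which meet `H` -/
def nu (H : Finset ℕ) (p : ℕ) : ℕ := (H.image (· % p)).card

/-- `H` misses a residue class modulo every prime -/
def Admissible (H : Finset ℕ) : Prop := ∀ p : ℕ, p.Prime → nu H p < p

/-- the expected density of the tuples -/
noncomputable def density (X r : ℕ) (H : Finset ℕ) : ℝ :=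
  ∏ p ∈ (Icc 1 ⌊(X : ℝ) ^ (1 / (r : ℝ))⌋₊).filter Nat.Prime, (1 - (nu H p : ℝ) / p)

/-- the singular series -/
noncomputable def S (H : Finset ℕ) : ℝ :=
  ∏' p : Nat.Primes, (1 - (nu H p : ℝ) / (p : ℕ)) / (1 - 1 / ((p : ℕ) : ℝ)) ^ H.card

open Classical in
/-- the number of the elements of `A` in `(u, v]` -/
noncomputable def count (A : Set ℕ) (u v : ℕ) : ℕ := ((Ioc u v).filter (fun n => n ∈ A)).card

/-- All intervals `(m - s, m + t]` with `s, t ≤ Y` of length at least `L / c` contain the right order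
of elements of `A`. -/
def RightOrder (A : Set ℕ) (L c : ℝ) (Y m : ℕ) : Prop :=
  ∀ s t : ℕ, s ≤ Y → t ≤ Y → L ≤ c * (s + t) →
    c * (s + t) / L ≤ count A (m - s) (m + t) ∧ (count A (m - s) (m + t) : ℝ) ≤ (s + t) / (c * L)

/-- Up to `δ`, `A` has a constant density `lam / L` (`c ≤ lam ≤ 1 / c`) on both sides of `m` up to the
distance `2 ^ j`. -/
def ConstantDensity (A : Set ℕ) (L c δ : ℝ) (m j : ℕ) : Prop :=
  ∃ lam : ℝ, c ≤ lam ∧ lam ≤ 1 / c ∧ ∀ s t : ℕ, s ≤ 2 ^ j → t ≤ 2 ^ j →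
    |(count A (m - s) (m + t) : ℝ) - lam * (s + t) / L| ≤ δ * 2 ^ j / L

open Classical in
/-- the number of the scales `L ≤ 2 ^ j ≤ Y` without this property -/
noncomputable def badScales (A : Set ℕ) (L c δ : ℝ) (Y m : ℕ) : ℕ :=
  ((Finset.range (Nat.log 2 Y + 1)).filter (fun j => L ≤ (2 : ℝ) ^ j ∧
    ¬ ConstantDensity A L c δ m j)).card

/-- The elements of `A` that are not regular points of `A`. -/
def Irregular (A : Set ℕ) (L c δ : ℝ) (B Y : ℕ) : Set ℕ :=
  {m | m ∈ A ∧ ¬ (RightOrder A L c Y m ∧ badScales A L c δ Y m ≤ B)}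

open Pool.Agent.Y879.AP Pool.Agent.W123.RP Pool.Agent.H373R2.T7 Pool.Agent.TH464.PO
open Pool.Agent.Y879.GL Pool.Agent.W123.RU Pool.Agent.W123.RU.Poly Pool.Agent.X262.Cnt
open Pool.Agent.TH464.PW Polynomial

/-- the forms `x + h` -/
noncomputable def F (H : Finset ℕ) (k : ℕ) (hk : H.card = k) : Fin k → ℤ[X] :=
  fun i => lf 1 (H.orderEmbOfFin hk i : ℕ)

variable {H : Finset ℕ} {k : ℕ}

lemma en_surj (hk : H.card = k) {h : ℕ} (hh : h ∈ H) : ∃ i, H.orderEmbOfFin hk i = h := by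
  have : h ∈ Set.range (H.orderEmbOfFin hk) := by
    rw [range_orderEmbOfFin]
    exact hh
  exact this

lemma Q_iff (hk : H.card = k) (p m : ℕ) : Q (F H k hk) p m ↔ ∃ h ∈ H, p ∣ m + h := by
  unfold Q F
  constructor
  · rintro ⟨i, hi⟩
    refine ⟨_, H.orderEmbOfFin_mem hk i, ?_⟩
    rw [lf_eval, one_mul] at hi
    exact_mod_cast hi
  · rintro ⟨h, hh, hd⟩
    obtain ⟨i, rfl⟩ := en_surj hk hh
    refine ⟨i, ?_⟩
    rw [lf_eval, one_mul]
    exact_mod_cast hd

lemma nu_eq (hk : H.card = k) (p : ℕ) (hp : p.Prime) : nuB (Q (F H k hk)) p = nu H p := by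
  classical
  have h1 : nuB (Q (F H k hk)) p = ((range p).filter (fun m => ∃ h ∈ H, p ∣ m + h)).card := by
    unfold nuB
    exact card_iff _ _ (fun m _ => Q_iff hk p m)
  rw [h1]
  unfold nu
  have hp0 := hp.pos
  symm
  apply Finset.card_bij (fun r _ => (p - r) % p)
  · intro r hr
    rw [mem_image] at hr
    obtain ⟨h, hh, rfl⟩ := hr
    rw [mem_filter, mem_range]
    refine ⟨Nat.mod_lt _ hp0, h, hh, ?_⟩
    have h2 : h % p < p := Nat.mod_lt _ hp0
    rw [Nat.dvd_iff_mod_eq_zero, Nat.add_mod, Nat.mod_mod]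
    rw [← Nat.add_mod]
    have h3 : (p - h % p + h) % p = (p - h % p + h % p) % p := by
      rw [Nat.add_mod, Nat.add_mod (p - h % p) (h % p), Nat.mod_mod]
    rw [h3, Nat.sub_add_cancel h2.le, Nat.mod_self]
  · intro r hr s hs hrs
    rw [mem_image] at hr hs
    obtain ⟨h, _, rfl⟩ := hr
    obtain ⟨h', _, rfl⟩ := hs
    have a1 : h % p < p := Nat.mod_lt _ hp0
    have a2 : h' % p < p := Nat.mod_lt _ hp0
    generalize h % p = r at a1 hrs ⊢
    generalize h' % p = s at a2 hrs ⊢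
    rcases Nat.eq_zero_or_pos r with rfl | hr0
    · rcases Nat.eq_zero_or_pos s with rfl | hs0
      · rfl
      · rw [Nat.sub_zero, Nat.mod_self, Nat.mod_eq_of_lt (by omega)] at hrs
        omega
    · rcases Nat.eq_zero_or_pos s with rfl | hs0
      · rw [Nat.sub_zero, Nat.mod_self, Nat.mod_eq_of_lt (by omega)] at hrs
        omega
      · rw [Nat.mod_eq_of_lt (by omega), Nat.mod_eq_of_lt (by omega)] at hrs
        omega
  · intro m hm
    rw [mem_filter, mem_range] at hm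
    obtain ⟨hm1, h, hh, hd⟩ := hm
    refine ⟨h % p, mem_image.2 ⟨h, hh, rfl⟩, ?_⟩
    have a1 : h % p < p := Nat.mod_lt _ hp0
    have a2 : (m + h % p) % p = 0 := by
      rw [Nat.add_mod_mod]
      exact Nat.mod_eq_zero_of_dvd hd
    generalize h % p = r at a1 a2 ⊢
    rcases Nat.eq_zero_or_pos r with rfl | hr0
    · rw [Nat.sub_zero, Nat.mod_self]
      rw [Nat.add_zero, Nat.mod_eq_of_lt hm1] at a2
      exact a2.symm
    · rw [Nat.mod_eq_of_lt (by omega)]
      obtain ⟨t, ht⟩ := Nat.dvd_of_mod_eq_zero a2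
      have ht1 : t = 1 := by
        have b1 : 0 < p * t := by omega
        have b2 : p * t < p * 2 := by omega
        have b3 : 0 < t := Nat.pos_of_mul_pos_left b1 |> fun h => by
          rcases Nat.eq_zero_or_pos t with h | h
          · rw [h] at b1
            omega
          · exact h
        have b4 : t < 2 := Nat.lt_of_mul_lt_mul_left b2
        omega
      rw [ht1] at ht
      omega

lemma density_eq (hk : H.card = k) (X r : ℕ) :
    density X r H = Vq (Q (F H k hk)) ⌊(X : ℝ) ^ (1 / (r : ℝ))⌋₊ := by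
  unfold density Vq pz
  refine Finset.prod_congr rfl fun p hp => ?_
  rw [nu_eq hk p (mem_filter.1 hp).2]

lemma tuples_iff (hk : H.card = k) (X r m : ℕ) : m ∈ Tuples X r H ↔
    Sf (Q (F H k hk)) ⌊(X : ℝ) ^ (1 / (r : ℝ))⌋₊ m := by
  unfold Tuples AlmostPrime Sf
  rw [Set.mem_ofPred_eq]
  constructor
  · intro h p hp hd
    obtain ⟨t, ht, htd⟩ := (Q_iff hk p m).1 hd
    have h3 : (p : ℝ) ≤ (X : ℝ) ^ (1 / (r : ℝ)) := (Nat.le_floor_iff (by positivity)).1 (mem_pz.1 hp).1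
    linarith [h t ht p (mem_pz.1 hp).2 htd]
  · intro h t ht p hp hd
    by_contra hlt
    exact h p (mem_pz.2 ⟨Nat.le_floor (not_lt.1 hlt), hp⟩) ((Q_iff hk p m).2 ⟨t, ht, hd⟩)

lemma adm_F (hk : H.card = k) (hadm : Admissible H) (p : ℕ) (hp : p.Prime) :
    nuB (Q (F H k hk)) p < p := by
  rw [nu_eq hk p hp]
  exact hadm p hp

lemma us_F (hk : H.card = k) (hadm : Admissible H) (B : ℝ) (hB : 1 ≤ B) (hH : ∀ h ∈ H, (h : ℝ) ≤ B) :
    US k 1 B 0 (F H k hk) := by
  unfold F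
  refine us_lf k (fun _ => 1) (fun i => ((H.orderEmbOfFin hk i : ℕ) : ℤ)) B 0 (fun i => one_ne_zero)
    (fun i => isCoprime_one_left) (fun i => by simpa using hB) (fun i => ?_) (fun p hp => ?_) ?_
  · push_cast
    rw [abs_of_nonneg (Nat.cast_nonneg _)]
    exact hH _ (H.orderEmbOfFin_mem hk i)
  · obtain ⟨m, _, hm⟩ := nu_exists _ p (adm_F hk hadm p hp)
    refine ⟨m, fun i h => hm ⟨i, ?_⟩⟩
    unfold F
    rw [lf_eval]
    exact h
  · intro i j t ht htU
    exfalso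
    have : (1 : ℝ) ≤ t := by exact_mod_cast ht
    linarith

/-- the differences -/
noncomputable def DE (H : Finset ℕ) (k : ℕ) (hk : H.card = k) : Finset ℕ :=
  (univ : Finset (Fin k × Fin k)).image
    (fun q => H.orderEmbOfFin hk q.1 - H.orderEmbOfFin hk q.2)

lemma DE_card (hk : H.card = k) : (DE H k hk).card ≤ k * k := by
  unfold DE
  refine Finset.card_image_le.trans ?_
  rw [Finset.card_univ, Fintype.card_prod, Fintype.card_fin]

lemma noas (hk : H.card = k) (U : ℝ) : NoAs (F H k hk) (DE H k hk) U := by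
  intro i j t ht _ htE h
  apply htE
  unfold F at h
  rcases lf_assoc _ _ _ _ _ h with h1 | h1
  · unfold DE
    rw [mem_image]
    refine ⟨(i, j), mem_univ _, ?_⟩
    have h2 := h1.2
    rw [one_mul] at h2
    have h3 : H.orderEmbOfFin hk i = H.orderEmbOfFin hk j + t := by exact_mod_cast h2
    simp only [h3]
    omega
  · exfalso
    have := h1.1
    omega

/-- the density is at most of the order `1 / log X` -/
lemma V_up (k : ℕ) (hk2 : 2 ≤ k) (E : ℝ) (hE : 0 < E) (r : ℕ) (hr : 2 ≤ r) : ∃ M : ℝ, 0 < M ∧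
    ∀ᶠ X : ℕ in atTop, ∀ (H : Finset ℕ) (hk : H.card = k), Admissible H →
      (∀ h ∈ H, (h : ℝ) ≤ (X : ℝ) ^ E) →
      Vq (Q (F H k hk)) ⌊(X : ℝ) ^ (1 / (r : ℝ))⌋₊ ≤ M / Real.log X := by
  obtain ⟨M, hM, h⟩ := V2_up E hE r hr
  refine ⟨M, hM, ?_⟩
  filter_upwards [h] with X hX H hk hadm hH
  obtain ⟨s, hs, t, ht, hst⟩ := Finset.one_lt_card.1 (by omega : 1 < H.card)
  wlog hlt : s < t generalizing s t
  · exact this t ht s hs (Ne.symm hst) (by omega)
  refine hX _ (t - s) (adm_F hk hadm) (by omega) ?_ ?_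
  · refine le_trans ?_ (hH t ht)
    exact_mod_cast Nat.sub_le t s
  · intro p hp hpD
    rw [nu_eq hk p hp]
    unfold nu
    refine Finset.one_lt_card.2 ⟨s % p, mem_image_of_mem _ hs, t % p, mem_image_of_mem _ ht, ?_⟩
    intro h1
    apply hpD
    exact (Nat.modEq_iff_dvd' hlt.le).1 h1

open Pool.Agent.H387R2 Pool.Agent.H387R2.Uni Pool.Agent.H386R2.HL Pool.Agent.H362R2.QT in
lemma S_eq (H : Finset ℕ) : S H = Uni.CT H := rfl

open Pool.Agent.H387R2 Pool.Agent.H387R2.Uni Pool.Agent.H386R2.HL Pool.Agent.H362R2.QT in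
lemma sy_eq (H : Finset ℕ) (y : ℕ) : sy (en H) y = ∏ p ∈ (Icc 1 y).filter Nat.Prime,
    (1 - (nu H p : ℝ) / p) / (1 - 1 / (p : ℝ)) ^ H.card := by
  unfold sy
  have h1 : (y + 1).primesBelow = (Icc 1 y).filter Nat.Prime := by
    ext p
    rw [Nat.mem_primesBelow, mem_filter, mem_Icc]
    constructor
    · rintro ⟨h2, h3⟩
      exact ⟨⟨h3.pos, by omega⟩, h3⟩
    · rintro ⟨h2, h3⟩
      exact ⟨by omega, h3⟩
  rw [h1]
  refine Finset.prod_congr rfl fun p _ => ?_
  rw [loc_en]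
  rfl

open Pool.Agent.H387R2 Pool.Agent.H387R2.Uni Pool.Agent.H386R2.HL Pool.Agent.H362R2.QT in
lemma S_bounds (H : Finset ℕ) (y : ℕ) (hy : 1 ≤ y) (hk : H.card ^ 2 ≤ y) (hH : ∀ h ∈ H, h ≤ y) :
    (1 - (H.card : ℝ) ^ 2 / y) * (∏ p ∈ (Icc 1 y).filter Nat.Prime,
      (1 - (nu H p : ℝ) / p) / (1 - 1 / (p : ℝ)) ^ H.card) ≤ S H ∧
    S H ≤ ∏ p ∈ (Icc 1 y).filter Nat.Prime,
      (1 - (nu H p : ℝ) / p) / (1 - 1 / (p : ℝ)) ^ H.card := by
  have h1 := cts_ge H y hy hk
  have h2 := CT_le H y (K := 1) le_rfl (M := y) hH (fun n hn hny => by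
    unfold tt
    apply le_of_eq
    apply Finset.prod_eq_one
    intro p hp
    exfalso
    rw [mem_filter, Nat.mem_primeFactors] at hp
    have := Nat.le_of_dvd (by omega) hp.1.2.1
    omega)
  rw [one_pow, one_mul] at h2
  rw [← sy_en, sy_eq] at h1 h2
  rw [S_eq]
  exact ⟨h1, h2⟩

lemma RD_one (Q : ℕ → ℕ → Prop) : RD Q 1 = 1 := by
  unfold RD
  simp

lemma Vq_one (Q : ℕ → ℕ → Prop) (y : ℕ) : Vq (Qn Q 1) y = Vq Q y := by
  unfold Vq
  refine Finset.prod_congr rfl fun p hp => ?_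
  have hpp := (mem_pz.1 hp).2
  rw [nuB_Qn_not Q 1 p (fun h => hpp.one_lt.ne' (Nat.dvd_one.1 h))]

/-- the density in terms of the singular series, uniformly for `H ⊆ [0, log ^ k X]` -/
lemma density_asym (k : ℕ) (r : ℕ) (hr : 2 ≤ r) (ε : ℝ) (hε : 0 < ε) : ∀ᶠ X : ℕ in atTop,
    ∀ H : Finset ℕ, H.card = k → Admissible H → (∀ h ∈ H, (h : ℝ) ≤ Real.log X ^ k) →
    |density X r H * Real.log X ^ k - (r * Real.exp (-Real.eulerMascheroniConstant)) ^ k * S H| ≤
      ε * S H := by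
  obtain ⟨M, hM⟩ : ∃ M, M = (r * Real.exp (-Real.eulerMascheroniConstant)) ^ k := ⟨_, rfl⟩
  have hM0 : 0 ≤ M := by rw [hM]; positivity
  rw [← hM]
  have hrr : (2 : ℝ) ≤ r := by exact_mod_cast hr
  have hpowr : Tendsto (fun X : ℕ => (X : ℝ) ^ (1 / (r : ℝ))) atTop atTop :=
    (tendsto_rpow_atTop (by positivity)).comp tendsto_natCast_atTop_atTop
  have hfl : Tendsto (fun X : ℕ => ⌊(X : ℝ) ^ (1 / (r : ℝ))⌋₊) atTop atTop :=
    tendsto_nat_floor_atTop.comp hpowr
  obtain ⟨η, hη⟩ : ∃ η : ℝ, η = min (1 / 2) (ε / (4 * (M + 1))) := ⟨_, rfl⟩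
  have hη0 : 0 < η := by rw [hη]; positivity
  have hη1 : η ≤ 1 / 2 := by rw [hη]; exact min_le_left _ _
  have hη2 : η * (4 * (M + 1)) ≤ ε := by
    rw [← le_div_iff₀ (by positivity), hη]
    exact min_le_right _ _
  obtain ⟨y1, hy1⟩ : ∃ y1 : ℕ, (k : ℝ) ^ 2 / η ≤ y1 := exists_nat_ge _
  filter_upwards [mean_gen (k * 1 + 1) k 1 one_pos r hr (ε / 4) (by positivity),
    logpow_rpow k 1 (1 / (r : ℝ)) one_pos (by positivity), hfl.eventually_ge_atTop (max y1 (k ^ 2 + 1)),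
    eventually_ge_atTop 3] with X a1 a3 a4 a5
  intro H hk hadm hH
  have hX1 : (1 : ℝ) ≤ X := by exact_mod_cast (by omega : 1 ≤ X)
  have hlX : 0 ≤ Real.log X := Real.log_nonneg hX1
  obtain ⟨y, hy⟩ : ∃ y, y = ⌊(X : ℝ) ^ (1 / (r : ℝ))⌋₊ := ⟨_, rfl⟩
  rw [← hy] at a4
  have hHy : ∀ h ∈ H, h ≤ y := by
    intro h hh
    rw [hy]
    apply Nat.le_floor
    rw [one_mul] at a3
    exact (hH h hh).trans a3
  have hky : k ^ 2 ≤ y := by
    have := (le_max_right _ _).trans a4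
    omega
  have hy0 : 1 ≤ y := by
    have := (le_max_right _ _).trans a4
    omega
  have hyr : (0 : ℝ) < y := by exact_mod_cast hy0
  have hB : 1 ≤ max ((X : ℝ) ^ (1 : ℝ)) (Real.log X ^ k) := le_max_of_le_left (Real.one_le_rpow hX1 zero_le_one)
  have hus := us_F hk hadm (max ((X : ℝ) ^ (1 : ℝ)) (Real.log X ^ k)) hB
    (fun h hh => (hH h hh).trans (le_max_right _ _))
  have h := a1 (Q (F H k hk)) 1 (us_perB hus) (adm_F hk hadm) le_rfl
    (by push_cast; exact Real.one_le_rpow hX1 zero_le_one)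
  rw [Vq_one, RD_one, mul_one, ← density_eq hk, ← hM] at h
  have hSS : SS (Q (F H k hk)) k ⌊(X : ℝ) ^ (1 / (r : ℝ))⌋₊ = ∏ p ∈ (Icc 1 y).filter Nat.Prime,
      (1 - (nu H p : ℝ) / p) / (1 - 1 / (p : ℝ)) ^ H.card := by
    unfold SS pz
    rw [← hy, hk]
    refine Finset.prod_congr rfl fun p hp => ?_
    rw [nu_eq hk p (mem_filter.1 hp).2]
  rw [hSS] at h
  have hb := S_bounds H y hy0 (by rw [hk]; exact hky) hHy
  obtain ⟨P, hP⟩ : ∃ P, P = ∏ p ∈ (Icc 1 y).filter Nat.Prime,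
      (1 - (nu H p : ℝ) / p) / (1 - 1 / (p : ℝ)) ^ H.card := ⟨_, rfl⟩
  rw [← hP] at h hb
  have hP0 : 0 ≤ P := by
    rw [hP]
    apply Finset.prod_nonneg
    intro p hp
    have hpp := (mem_filter.1 hp).2
    have h1 : (2 : ℝ) ≤ p := by exact_mod_cast hpp.two_le
    have h2 : 1 / (p : ℝ) ≤ 1 / 2 := by gcongr
    have h3 : (nu H p : ℝ) ≤ p := by exact_mod_cast (hadm p hpp).le
    apply div_nonneg
    · rw [sub_nonneg, div_le_one (by linarith)]
      exact h3
    · apply pow_nonneg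
      linarith
  have e1 : (H.card : ℝ) ^ 2 / y ≤ η := by
    rw [hk, div_le_iff₀ hyr]
    rw [div_le_iff₀ hη0] at hy1
    have : (y1 : ℝ) ≤ y := by exact_mod_cast (le_max_left _ _).trans a4
    nlinarith
  have e2 : (1 - η) * P ≤ S H := le_trans (mul_le_mul_of_nonneg_right (by linarith) hP0) hb.1
  have e3 : P ≤ 2 * S H := by nlinarith
  have hS0 : 0 ≤ S H := by linarith
  have c1 : |M * P - M * S H| ≤ ε / 2 * S H := by
    rw [← mul_sub, abs_mul, abs_of_nonneg hM0, abs_of_nonneg (by linarith [hb.2])]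
    have : P - S H ≤ η * P := by linarith
    calc M * (P - S H) ≤ M * (η * (2 * S H)) := by
          apply mul_le_mul_of_nonneg_left _ hM0
          exact this.trans (mul_le_mul_of_nonneg_left e3 hη0.le)
      _ = (2 * M * η) * S H := by ring
      _ ≤ ε / 2 * S H := by
          apply mul_le_mul_of_nonneg_right _ hS0
          nlinarith
  have c2 := abs_sub_le (density X r H * Real.log X ^ k) (M * P) (M * S H)
  have c3 : ε / 4 * P ≤ ε / 2 * S H := by
    calc ε / 4 * P ≤ ε / 4 * (2 * S H) := mul_le_mul_of_nonneg_left e3 (by positivity)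
      _ = _ := by ring
  linarith

open Classical in
/-- **Regular points of arbitrary sets of almost prime tuples, uniformly in the shifts.** Let `k ≥ 2` and
`E, θ > 0`. There is `r₀` such that for all `r ≥ r₀`, with `V = density X r H`:

(1) The `m`, for which all `m + h`, `h ∈ H`, are prime and larger than `X ^ (1 / r)`, are in
`Tuples X r H`.

(2) For all large `X`, all admissible `H` with `k` elements and all intervals `(u, u + Y]` with
`Y ≥ X ^ θ` the number of the almost prime tuples in the interval is between `Y V / 2` and `3 Y V / 2`.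

(3) For every `ε > 0` there is `c > 0` and for every `δ > 0` there is `B` such that for all large `X`, all
admissible `H ⊆ [0, X ^ E]` with `k` elements and all `X ^ θ ≤ Y ≤ X`, `Y ≤ u`: if `A` is ANY set of almost
prime tuples, for example the set of all prime tuples, then all but at most `ε Y V` of the elements of `A`
in `(u, u + Y]` are regular points of `A`: all intervals around the point, of length at least `1 / (c V)`
and with end points within `Y`, contain the right order of elements of `A`, and `A` has up to `δ` a constant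
density around the point at all but `B` of the scales `1 / V ≤ 2 ^ j ≤ Y`.

(4) For `H ⊆ [0, log ^ k X]` the density is `(r exp (-γ)) ^ k 𝔖(H) / log ^ k X` asymptotically, uniformly
in `H`. -/
theorem result (k : ℕ) (hk : 2 ≤ k) (E θ : ℝ) (hE : 0 < E) (hθ : 0 < θ) :
    ∃ r₀ : ℕ, 2 ≤ r₀ ∧ ∀ r : ℕ, r₀ ≤ r →
      (∀ (X : ℕ) (H : Finset ℕ) (m : ℕ), (∀ h ∈ H, (m + h).Prime ∧
        (X : ℝ) ^ (1 / (r : ℝ)) < ((m + h : ℕ) : ℝ)) → m ∈ Tuples X r H) ∧
      (∀ᶠ X : ℕ in atTop, ∀ H : Finset ℕ, H.card = k → Admissible H →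
        ∀ u Y : ℕ, (X : ℝ) ^ θ ≤ Y →
        |(count (Tuples X r H) u (u + Y) : ℝ) - Y * density X r H| ≤ 1 / 2 * (Y * density X r H)) ∧
      (∀ ε : ℝ, 0 < ε → ∃ c : ℝ, 0 < c ∧ ∀ δ : ℝ, 0 < δ → ∃ B : ℕ, ∀ᶠ X : ℕ in atTop,
        ∀ H : Finset ℕ, H.card = k → Admissible H → (∀ h ∈ H, (h : ℝ) ≤ (X : ℝ) ^ E) →
        ∀ u Y : ℕ, (X : ℝ) ^ θ ≤ Y → Y ≤ X → Y ≤ u → ∀ A : Set ℕ, A ⊆ Tuples X r H →
        (count (Irregular A (1 / density X r H) c δ B Y) u (u + Y) : ℝ) ≤
          ε * (Y * density X r H)) ∧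
      (∀ ε : ℝ, 0 < ε → ∀ᶠ X : ℕ in atTop, ∀ H : Finset ℕ, H.card = k → Admissible H →
        (∀ h ∈ H, (h : ℝ) ≤ Real.log X ^ k) →
        |density X r H * Real.log X ^ k -
          (r * Real.exp (-Real.eulerMascheroniConstant)) ^ k * S H| ≤ ε * S H) := by
  obtain ⟨r1, hr1, h1⟩ := count_unif (k * 1 + 1) (by omega) θ (1 / 2) hθ (by norm_num)
  obtain ⟨r2, hr2, h2⟩ := hered_polys k 1 (k * k) E 1 θ hE one_pos hθ
  refine ⟨max r1 r2, hr1.trans (le_max_left _ _), ?_⟩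
  intro r hr
  have hrr : 2 ≤ r := (hr1.trans (le_max_left _ _)).trans hr
  refine ⟨?_, ?_, ?_, fun ε hε => density_asym k r hrr ε hε⟩
  · intro X H m h t ht p hp hd
    rw [(Nat.prime_dvd_prime_iff_eq hp (h t ht).1).1 hd]
    exact (h t ht).2
  · filter_upwards [h1 r ((le_max_left _ _).trans hr)] with X hX
    intro H hH hadm u Y hY
    have hus := us_F hH hadm (1 + ∑ h ∈ H, (h : ℝ)) (by
      have : 0 ≤ ∑ h ∈ H, (h : ℝ) := Finset.sum_nonneg fun _ _ => Nat.cast_nonneg _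
      linarith) (fun h hh => by
      have := Finset.single_le_sum (f := fun h : ℕ => (h : ℝ)) (fun _ _ => Nat.cast_nonneg _) hh
      linarith)
    have h3 := hX (Q (F H k hH)) (us_perB hus) (adm_F hH hadm) u Y hY
    rw [← density_eq hH] at h3
    have h4 : count (Tuples X r H) u (u + Y) = ((Ioc u (u + Y)).filter
        (fun n => Sf (Q (F H k hH)) ⌊(X : ℝ) ^ (1 / (r : ℝ))⌋₊ n)).card := by
      unfold count
      apply card_iff
      intro n _
      exact tuples_iff hH X r n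
    rw [h4]
    exact h3
  · intro ε hε
    obtain ⟨M, hM, hV⟩ := V_up k hk E hE r hrr
    obtain ⟨c, hc, h3⟩ := h2 r ((le_max_right _ _).trans hr) M hM ε hε
    refine ⟨c, hc, fun δ hδ => ?_⟩
    obtain ⟨B, h4⟩ := h3 δ hδ
    refine ⟨B, ?_⟩
    filter_upwards [h4, hV, eventually_ge_atTop 1] with X hX hVX hX1
    intro H hH hadm hHX u Y hY hYX hYu A hA
    have hX1r : (1 : ℝ) ≤ X := by exact_mod_cast hX1
    rw [density_eq hH]
    exact hX (F H k hH) (us_F hH hadm _ (Real.one_le_rpow hX1r hE.le) hHX) (DE H k hH) (DE_card hH)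
      (noas hH _) (hVX H hH hadm hHX) u Y hY hYX hYu A (fun m hm => (tuples_iff hH X r m).1 (hA hm))

end Pool.Agent.Results.MP_485179_nt.RegularPrimeTuples
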