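import Mathlib
import Pool.Agent.X262.LOS.Rel6
import Pool.Agent.Results.MP_485179_nt.RegularPrimeTuples

set_option autoImplicit false

/-!
# The almost primes around tuples of almost primes, uniformly in the shifts
-/

namespace Pool.Agent.Results.MP_485179_nt.ConsecutiveTuples

open Finset Filter

/-- all prime factors of `m` are larger than `X ^ (1 / r)` -/
def AlmostPrime (X r m : ℕ) : Prop := ∀ p : ℕ, p.Prime → p ∣ m → (X : ℝ) ^ (1 / (r : ℝ)) < p

/-- the number of the residue classes modulo `p` which meet `H` -/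
def nu (H : Finset ℕ) (p : ℕ) : ℕ := (H.image (· % p)).card

/-- `H` misses a residue class modulo every prime -/
def Admissible (H : Finset ℕ) : Prop := ∀ p : ℕ, p.Prime → nu H p < p

/-- the expected density of the `m` for which all `m + h`, `h ∈ H`, are almost prime -/
noncomputable def density (X r : ℕ) (H : Finset ℕ) : ℝ :=
  ∏ p ∈ (Icc 1 ⌊(X : ℝ) ^ (1 / (r : ℝ))⌋₊).filter Nat.Prime, (1 - (nu H p : ℝ) / p)

/-- the density of the almost primes -/
noncomputable def V (X r : ℕ) : ℝ :=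
  ∏ p ∈ (Icc 1 ⌊(X : ℝ) ^ (1 / (r : ℝ))⌋₊).filter Nat.Prime, (1 - 1 / (p : ℝ))

/-- the singular series -/
noncomputable def S (H : Finset ℕ) : ℝ :=
  ∏' p : Nat.Primes, (1 - (nu H p : ℝ) / (p : ℕ)) / (1 - 1 / ((p : ℕ) : ℝ)) ^ H.card

open Classical in
/-- the number of the `m` in `(Z, Z + Y]` for which all `m + h`, `h ∈ H`, are almost prime -/
noncomputable def tuples (X r : ℕ) (H : Finset ℕ) (Z Y : ℕ) : ℕ :=
  ((Ioc Z (Z + Y)).filter (fun m => ∀ h ∈ H, AlmostPrime X r (m + h))).card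

open Classical in
/-- the number of the `t` in `[1, T]`, not in `H`, for which `m + t` is almost prime -/
noncomputable def further (X r : ℕ) (H : Finset ℕ) (T m : ℕ) : ℕ :=
  ((Icc 1 T).filter (fun t => t ∉ H ∧ AlmostPrime X r (m + t))).card

open Classical in
/-- the number of the `m` in `(Z, Z + Y]` for which all `m + h`, `h ∈ H`, are almost prime and the
number of the further almost primes in `(m, m + T]` is in `A` -/
noncomputable def tuplesWith (X r : ℕ) (H : Finset ℕ) (T : ℕ) (A : Finset ℕ) (Z Y : ℕ) : ℕ :=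
  ((Ioc Z (Z + Y)).filter (fun m => (∀ h ∈ H, AlmostPrime X r (m + h)) ∧
    further X r H T m ∈ A)).card

open Classical in
/-- the number of the `m` in `(Z, Z + Y]` for which the almost primes in `[m, m + T]` are exactly the
numbers `m + h`, `h ∈ H` -/
noncomputable def consecutive (X r : ℕ) (H : Finset ℕ) (T Z Y : ℕ) : ℕ :=
  ((Ioc Z (Z + Y)).filter (fun m => ∀ t, t ≤ T → (AlmostPrime X r (m + t) ↔ t ∈ H))).card

/-- the probability that a Poisson variable with mean `x` is in `A` -/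
noncomputable def poisson (x : ℝ) (A : Finset ℕ) : ℝ :=
  ∑ j ∈ A, Real.exp (-x) * x ^ j / j.factorial

open Pool.Agent.X262.LOS Pool.Agent.H373R2.T7 Pool.Agent.W123.RP Pool.Agent.W123.RU
open Pool.Agent.TH464.PO Pool.Agent.Y879.AP

lemma QH_iff (H : Finset ℕ) (p m : ℕ) (hp : p.Prime) : QH Q1 H p m ↔ ∃ h ∈ H, p ∣ m + h := by
  have hn1 : ¬ p ∣ 1 := fun h => hp.one_lt.ne' (Nat.dvd_one.1 h)
  unfold QH Q1
  constructor
  · rintro ⟨h, hh, _, hd⟩
    exact ⟨h, hh, hd⟩
  · rintro ⟨h, hh, hd⟩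
    exact ⟨h, hh, hn1, hd⟩

lemma nu_eq (H : Finset ℕ) (p : ℕ) (hp : p.Prime) : nuB (QH Q1 H) p = nu H p := by
  classical
  have h1 := RegularPrimeTuples.nu_eq (H := H) (k := H.card) rfl p hp
  have h2 : nu H p = RegularPrimeTuples.nu H p := rfl
  rw [h2, ← h1]
  unfold nuB
  apply card_iff
  intro m _
  rw [QH_iff H p m hp]
  exact (RegularPrimeTuples.Q_iff (H := H) (k := H.card) rfl p m).symm

lemma density_eq (X r : ℕ) (H : Finset ℕ) :
    density X r H = Vq (QH Q1 H) ⌊(X : ℝ) ^ (1 / (r : ℝ))⌋₊ := by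
  unfold density Vq pz
  refine Finset.prod_congr rfl fun p hp => ?_
  rw [nu_eq H p (mem_filter.1 hp).2]

lemma V_eq (X r : ℕ) : V X r = Vz ⌊(X : ℝ) ^ (1 / (r : ℝ))⌋₊ := rfl

lemma almost_iff (X r n : ℕ) : Sf Q1 ⌊(X : ℝ) ^ (1 / (r : ℝ))⌋₊ n ↔ AlmostPrime X r n := by
  unfold Sf AlmostPrime Q1
  constructor
  · intro h p hp hd
    by_contra hcon
    rw [not_lt] at hcon
    exact h p (mem_pz.2 ⟨Nat.le_floor hcon, hp⟩) ⟨fun h1 => hp.one_lt.ne' (Nat.dvd_one.1 h1), hd⟩
  · rintro h p hp ⟨_, hd⟩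
    rw [mem_pz] at hp
    have h1 := h p hp.2 hd
    have h2 := (Nat.le_floor_iff (by positivity)).1 hp.1
    linarith

lemma base_iff (X r : ℕ) (H : Finset ℕ) (m : ℕ) :
    Sf (QH Q1 H) ⌊(X : ℝ) ^ (1 / (r : ℝ))⌋₊ m ↔ ∀ h ∈ H, AlmostPrime X r (m + h) := by
  rw [sf_QH]
  simp only [almost_iff]

lemma tuples_eq (X r : ℕ) (H : Finset ℕ) (Z Y : ℕ) :
    tuples X r H Z Y = Nb Q1 ⌊(X : ℝ) ^ (1 / (r : ℝ))⌋₊ H Z Y := by
  unfold tuples Nb
  apply card_iff
  intro m _
  rw [base_iff]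

lemma further_eq (X r : ℕ) (H : Finset ℕ) (T m : ℕ) :
    further X r H T m = Nn Q1 ⌊(X : ℝ) ^ (1 / (r : ℝ))⌋₊ (Icc 1 T \ H) m := by
  classical
  unfold further Nn
  congr 1
  ext t
  rw [mem_filter, mem_filter, Finset.mem_sdiff, almost_iff, and_assoc]

lemma tuplesWith_eq (X r : ℕ) (H : Finset ℕ) (T : ℕ) (A : Finset ℕ) (Z Y : ℕ) :
    tuplesWith X r H T A Z Y = NA Q1 ⌊(X : ℝ) ^ (1 / (r : ℝ))⌋₊ H T A Z Y := by
  unfold tuplesWith NA
  apply card_iff
  intro m _
  rw [base_iff, further_eq]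

lemma poisson_eq (x : ℝ) (A : Finset ℕ) : poisson x A = Po x A := rfl

lemma poisson_zero (x : ℝ) : poisson x {0} = Real.exp (-x) := by
  unfold poisson
  rw [Finset.sum_singleton, pow_zero, mul_one, Nat.factorial_zero, Nat.cast_one, div_one]

lemma consecutive_eq (X r : ℕ) (H : Finset ℕ) (T Z Y : ℕ) (h0 : 0 ∈ H) (hT : ∀ h ∈ H, h ≤ T) :
    consecutive X r H T Z Y = tuplesWith X r H T {0} Z Y := by
  classical
  unfold consecutive tuplesWith
  apply card_iff
  intro m _
  rw [mem_singleton]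
  unfold further
  rw [card_eq_zero, Finset.filter_eq_empty_iff]
  constructor
  · intro h
    refine ⟨fun a ha => (h a (hT a ha)).2 ha, ?_⟩
    rintro t ht ⟨h1, h2⟩
    exact h1 ((h t (mem_Icc.1 ht).2).1 h2)
  · rintro ⟨h1, h2⟩ t ht
    refine ⟨fun h3 => ?_, fun h3 => h1 t h3⟩
    by_contra hcon
    rcases Nat.eq_zero_or_pos t with h4 | h4
    · exact hcon (h4 ▸ h0)
    · exact h2 (mem_Icc.2 ⟨h4, ht⟩) ⟨hcon, h3⟩

lemma further_mono (X r : ℕ) (H : Finset ℕ) (T T' m : ℕ) (h : T ≤ T') :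
    further X r H T m ≤ further X r H T' m := by
  classical
  unfold further
  apply card_le_card
  intro t ht
  rw [mem_filter, mem_Icc] at ht ⊢
  exact ⟨⟨ht.1.1, ht.1.2.trans h⟩, ht.2⟩

lemma with_mono (X r : ℕ) (H : Finset ℕ) (T T' l : ℕ) (A : Finset ℕ) (Z Y : ℕ) (h : T ≤ T')
    (hA : ∀ j ∈ A, j < l) : tuplesWith X r H T' A Z Y ≤ tuplesWith X r H T (range l) Z Y := by
  classical
  unfold tuplesWith
  apply card_le_card
  intro m hm
  rw [mem_filter] at hm ⊢
  refine ⟨hm.1, hm.2.1, ?_⟩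
  rw [mem_range]
  exact lt_of_le_of_lt (further_mono X r H T T' m h) (hA _ hm.2.2)

lemma poisson_small (l : ℕ) (ε : ℝ) (hε : 0 < ε) : ∃ C1 : ℝ, 0 ≤ C1 ∧ ∀ x : ℝ, C1 ≤ x →
    poisson x (range l) ≤ ε := by
  have h1 : Tendsto (fun x : ℝ => poisson x (range l)) atTop (nhds 0) := by
    unfold poisson
    have h2 : Tendsto (fun x : ℝ => ∑ j ∈ range l, Real.exp (-x) * x ^ j / j.factorial) atTop
        (nhds (∑ j ∈ range l, (0 : ℝ))) := by
      apply tendsto_finsetSum
      intro j _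
      have h3 := (Real.tendsto_pow_mul_exp_neg_atTop_nhds_zero j).div_const (j.factorial : ℝ)
      rw [zero_div] at h3
      refine h3.congr fun x => ?_
      rw [mul_comm]
    rwa [Finset.sum_const_zero] at h2
  obtain ⟨C1, hC1⟩ := (h1.eventually_le_const hε).exists_forall_of_atTop
  exact ⟨max C1 0, le_max_right _ _, fun x hx => hC1 x ((le_max_left _ _).trans hx)⟩

lemma poisson_le (x : ℝ) (hx : 0 ≤ x) (l : ℕ) (A : Finset ℕ) (hA : ∀ j ∈ A, j < l) :
    0 ≤ poisson x A ∧ poisson x A ≤ poisson x (range l) := by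
  unfold poisson
  refine ⟨Finset.sum_nonneg fun j _ => by positivity, ?_⟩
  apply Finset.sum_le_sum_of_subset_of_nonneg
  · intro j hj
    exact mem_range.2 (hA j hj)
  · intro j _ _
    positivity

/-- **The almost primes around tuples of almost primes.** Let `k, l ≥ 0`, `E, C ≥ 0` and `ε, θ > 0`.
There is `r₀` such that for all `r ≥ r₀`, for all large `X`, for all sets `H ⊆ [0, X ^ E]` with at most
`k` elements and all intervals `(Z, Z + Y]` with `Y ≥ X ^ θ`, with `V = V X r`: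

(1) the number of the `m` in the interval for which all `m + h`, `h ∈ H`, are almost prime is
`Y density X r H`, up to `ε Y density X r H`;

(2) these `m` have a number of further almost primes in `(m, m + T]` with the Poisson distribution with
mean `T V`, up to `ε Y density X r H` for each set `A` of numbers, for all `T ≤ C / V`; for
`A ⊆ {0, ..., l - 1}` for all `T`;

(3) if `0 ∈ H` and `T` is the largest element of `H`, the number of the `m` in the interval for which
the `m + h` are consecutive almost primes is `Y density X r H exp (- T V)`, up to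
`ε Y density X r H`;

(4) if `H` is admissible with `k` elements in `[0, log ^ k X]`, then the density is asymptotically
`(r exp (-γ)) ^ k 𝔖(H) / log ^ k X`. -/
theorem result (k l : ℕ) (E C ε θ : ℝ) (hE : 0 ≤ E) (hC : 0 ≤ C) (hε : 0 < ε) (hθ : 0 < θ) :
    ∃ r₀ : ℕ, 2 ≤ r₀ ∧ ∀ r : ℕ, r₀ ≤ r → ∀ᶠ X : ℕ in atTop,
      ∀ H : Finset ℕ, H.card ≤ k → (∀ h ∈ H, (h : ℝ) ≤ (X : ℝ) ^ E) →
      ∀ Z Y : ℕ, (X : ℝ) ^ θ ≤ Y →
      (|(tuples X r H Z Y : ℝ) - Y * density X r H| ≤ ε * (Y * density X r H)) ∧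
      (∀ (T : ℕ) (A : Finset ℕ), (T * V X r ≤ C ∨ ∀ j ∈ A, j < l) →
        |(tuplesWith X r H T A Z Y : ℝ) - Y * density X r H * poisson (T * V X r) A| ≤
          ε * (Y * density X r H)) ∧
      (∀ T ∈ H, 0 ∈ H → (∀ h ∈ H, h ≤ T) →
        |(consecutive X r H T Z Y : ℝ) - Y * density X r H * Real.exp (-(T * V X r))| ≤
          ε * (Y * density X r H)) ∧
      (Admissible H → H.card = k → (∀ h ∈ H, (h : ℝ) ≤ Real.log X ^ k) →
        |density X r H * Real.log X ^ k -
          (r * Real.exp (-Real.eulerMascheroniConstant)) ^ k * S H| ≤ ε * S H) := by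
  obtain ⟨C1, hC10, hC1⟩ := poisson_small (l + 1) (min ε 1 / 4) (by positivity)
  obtain ⟨r0, hr02, hlaw⟩ := base_lawA k E (max C (C1 + 1)) (min ε 1 / 4) θ hE
    (hC.trans (le_max_left _ _)) (by positivity) (by
      have := min_le_right ε 1
      linarith) hθ
  refine ⟨r0, hr02, fun r hr => ?_⟩
  have hr2 : 2 ≤ r := hr02.trans hr
  filter_upwards [hlaw r hr, RegularPrimeTuples.density_asym k r hr2 ε hε] with X h1 h2
  intro H hH hHX Z Y hXY
  obtain ⟨h3, h4⟩ := h1 Z Y hXY H hH hHX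
  rw [← tuples_eq, ← density_eq] at h3
  simp only [← tuplesWith_eq, ← density_eq, ← V_eq, ← poisson_eq] at h4
  obtain ⟨D, hD⟩ : ∃ D, D = Y * density X r H := ⟨_, rfl⟩
  have hD0 : 0 ≤ D := by
    rw [hD, density_eq]
    exact mul_nonneg (Nat.cast_nonneg _) (Vq_nonneg _ _)
  have hVpos : 0 < V X r := by
    have := Vq_pos Q1 Q1_adm ⌊(X : ℝ) ^ (1 / (r : ℝ))⌋₊
    rwa [Vq_Q1] at this
  have hV1 : V X r ≤ 1 := by
    have := Vq_le_one Q1 ⌊(X : ℝ) ^ (1 / (r : ℝ))⌋₊
    rwa [Vq_Q1] at this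
  rw [← hD] at h3 h4 ⊢
  have hε1 : min ε 1 ≤ ε := min_le_left _ _
  have hε0 : 0 < min ε 1 := by positivity
  obtain ⟨e, he⟩ : ∃ e, e = min ε 1 := ⟨_, rfl⟩
  rw [← he] at h3 h4 hC1 hε1 hε0
  have heD : e * D ≤ ε * D := mul_le_mul_of_nonneg_right hε1 hD0
  have heD0 : 0 ≤ e * D := by positivity
  -- all windows
  have key : ∀ (T : ℕ) (A : Finset ℕ), (T * V X r ≤ C ∨ ∀ j ∈ A, j < l + 1) →
      |(tuplesWith X r H T A Z Y : ℝ) - D * poisson (T * V X r) A| ≤ ε * D := by
    intro T A hTA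
    by_cases hTs : (T : ℝ) * V X r ≤ max C (C1 + 1)
    · exact (h4 T hTs A).trans (by linarith)
    · rw [not_le] at hTs
      have hA : ∀ j ∈ A, j < l + 1 := by
        rcases hTA with h5 | h5
        · have := le_max_left C (C1 + 1)
          linarith
        · exact h5
      obtain ⟨T1, hT1⟩ : ∃ T1 : ℕ, T1 = ⌈C1 / V X r⌉₊ := ⟨_, rfl⟩
      have a1 : C1 ≤ T1 * V X r := by
        rw [← div_le_iff₀ hVpos, hT1]
        exact Nat.le_ceil _
      have a2 : T1 * V X r ≤ C1 + 1 := by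
        have h5 : (T1 : ℝ) < C1 / V X r + 1 := by
          rw [hT1]
          exact Nat.ceil_lt_add_one (by positivity)
        have h6 : (T1 : ℝ) * V X r < (C1 / V X r + 1) * V X r := mul_lt_mul_of_pos_right h5 hVpos
        rw [add_mul, div_mul_cancel₀ _ hVpos.ne', one_mul] at h6
        linarith
      have a3 : T1 ≤ T := by
        by_contra hcon
        rw [not_le] at hcon
        have h5 : (T : ℝ) ≤ T1 := by exact_mod_cast hcon.le
        have h6 := mul_le_mul_of_nonneg_right h5 hVpos.le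
        have := le_max_right C (C1 + 1)
        linarith
      have b1 := with_mono X r H T1 T (l + 1) A Z Y a3 hA
      have b2 := h4 T1 (a2.trans (le_max_right _ _)) (range (l + 1))
      have b3 := hC1 _ a1
      have b4 : (tuplesWith X r H T A Z Y : ℝ) ≤ tuplesWith X r H T1 (range (l + 1)) Z Y := by
        exact_mod_cast b1
      obtain ⟨b5, b6⟩ := abs_le.1 b2
      have b7 : D * poisson (T1 * V X r) (range (l + 1)) ≤ D * (e / 4) :=
        mul_le_mul_of_nonneg_left b3 hD0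
      have hTV : 0 ≤ (T : ℝ) * V X r := by positivity
      obtain ⟨c1, c2⟩ := poisson_le (T * V X r) hTV (l + 1) A hA
      have c3 := hC1 (T * V X r) (by
        have := le_max_right C (C1 + 1)
        linarith)
      have c4 : D * poisson (T * V X r) A ≤ D * (e / 4) :=
        mul_le_mul_of_nonneg_left (c2.trans c3) hD0
      have c5 : 0 ≤ D * poisson (T * V X r) A := mul_nonneg hD0 c1
      have c6 : (0 : ℝ) ≤ tuplesWith X r H T A Z Y := Nat.cast_nonneg _
      rw [abs_le]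
      constructor <;> linarith
  refine ⟨h3.trans (by linarith), ?_, ?_, ?_⟩
  · intro T A hTA
    apply key T A
    rcases hTA with h5 | h5
    · exact Or.inl h5
    · exact Or.inr fun j hj => (h5 j hj).trans (Nat.lt_succ_self l)
  · intro T _ h0 hmax
    have h5 := key T {0} (Or.inr (fun j hj => by
      rw [mem_singleton] at hj
      omega))
    rw [consecutive_eq X r H T Z Y h0 hmax]
    rwa [poisson_zero] at h5
  · intro hadm hk hlog
    exact h2 H hk hadm hlog

end Pool.Agent.Results.MP_485179_nt.ConsecutiveTuples
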